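import Mathlib

/-!
Combinatorial heart of the upper bound. `g i` is the index of the first `Y`-letter at or after the
`i`-th `X`-letter, in a cyclic word with 11 letters `X` and 11 letters `Y`.
-/

set_option autoImplicit false

namespace Pool.Agent.Slip

/-- `PairStep g β α i i'`: starting at or before the letter `X_i`, moving by `β` letters `Y` and
then by `α` letters `X` ends at or before `X_{i'}`. -/
def PairStep (g : ℤ → ℤ) (β α : ℤ) (i i' : ℤ) : Prop := ∃ c : ℤ, g i + β < g c ∧ c + α ≤ i'

/-- one round of the word -/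
def Round (g : ℤ → ℤ) (i i' : ℤ) : Prop :=
  ∃ i1 i2 i3 i4 i5 : ℤ, PairStep g 1 1 i i1 ∧ PairStep g 1 1 i1 i2 ∧ PairStep g 1 10 i2 i3 ∧
    PairStep g 9 10 i3 i4 ∧ PairStep g 1 1 i4 i5 ∧ PairStep g 1 1 i5 i'

/-- run-level maps: `e k = 1` iff the `k`-th `Y`-run has length one, `f k = 1` iff the
`(k+1)`-st `X`-run has length one, `K` is the number of runs per turn. -/
def q1 (e f : ℕ → ℕ) (k : ℕ) : ℕ := k + e k + 1 + f (k + e k)
def q2 (K : ℕ) (e : ℕ → ℕ) (k : ℕ) : ℕ := k + e k + K
def q3 (K : ℕ) (e : ℕ → ℕ) (k : ℕ) : ℕ := k - 1 - e (k - 1) + K + K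
def psi (K : ℕ) (e f : ℕ → ℕ) (k : ℕ) : ℕ :=
  q1 e f (q1 e f (q3 K e (q2 K e (q1 e f (q1 e f k)))))

theorem psi_check1 : ∀ E F : Fin 1 → Fin 2, (∃ i, E i = 0) → (∃ i, F i = 0) →
    ∃ k : Fin 1, psi 1 (fun n => (E (Fin.ofNat 1 n) : ℕ)) (fun n => (F (Fin.ofNat 1 n) : ℕ))
      (psi 1 (fun n => (E (Fin.ofNat 1 n) : ℕ)) (fun n => (F (Fin.ofNat 1 n) : ℕ)) k) ≤ k + 13 * 1 := by
  decide

theorem psi_check2 : ∀ E F : Fin 2 → Fin 2, (∃ i, E i = 0) → (∃ i, F i = 0) →
    ∃ k : Fin 2, psi 2 (fun n => (E (Fin.ofNat 2 n) : ℕ)) (fun n => (F (Fin.ofNat 2 n) : ℕ))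
      (psi 2 (fun n => (E (Fin.ofNat 2 n) : ℕ)) (fun n => (F (Fin.ofNat 2 n) : ℕ)) k) ≤ k + 13 * 2 := by
  decide

set_option maxRecDepth 100000 in
theorem psi_check3 : ∀ E F : Fin 3 → Fin 2, (∃ i, E i = 0) → (∃ i, F i = 0) →
    ∃ k : Fin 3, psi 3 (fun n => (E (Fin.ofNat 3 n) : ℕ)) (fun n => (F (Fin.ofNat 3 n) : ℕ))
      (psi 3 (fun n => (E (Fin.ofNat 3 n) : ℕ)) (fun n => (F (Fin.ofNat 3 n) : ℕ)) k) ≤ k + 13 * 3 := by
  decide

theorem psi_le (K : ℕ) (e f : ℕ → ℕ) (he : ∀ k, e k ≤ 1) (hf : ∀ k, f k ≤ 1) (k : ℕ) :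
    psi K e f k ≤ k + 12 + 3 * K := by
  have h1 : ∀ k, q1 e f k ≤ k + 3 := fun k => by
    have := he k; have := hf (k + e k); simp only [q1]; omega
  have h1' : ∀ k, k + 1 ≤ q1 e f k := fun k => by simp only [q1]; omega
  have h2 : ∀ k, q2 K e k ≤ k + 1 + K := fun k => by
    have := he k; simp only [q2]; omega
  have h2' : ∀ k, k ≤ q2 K e k := fun k => by simp only [q2]; omega
  have h3 : ∀ k, 1 ≤ k → q3 K e k ≤ k - 1 + 2 * K := fun k hk => by
    simp only [q3]; omega
  unfold psi
  have a1 := h1 k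
  have a1' := h1' k
  have a2 := h1 (q1 e f k)
  have a2' := h1' (q1 e f k)
  have a3 := h2 (q1 e f (q1 e f k))
  have a3' := h2' (q1 e f (q1 e f k))
  have a4 := h3 (q2 K e (q1 e f (q1 e f k))) (by omega)
  have a5 := h1 (q3 K e (q2 K e (q1 e f (q1 e f k))))
  have a6 := h1 (q1 e f (q3 K e (q2 K e (q1 e f (q1 e f k)))))
  omega

section
variable (g : ℤ → ℤ) (hg : Monotone g) (hp : ∀ i, g (i + 11) = g i + 11)
include hg hp

theorem exists_next (i : ℤ) :
    ∃ m : ℤ, (i < m ∧ g m < g (m + 1)) ∧ ∀ z : ℤ, (i < z ∧ g z < g (z + 1)) → m ≤ z := by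
  refine Int.exists_least_of_bdd (P := fun z => i < z ∧ g z < g (z + 1)) ⟨i, fun z hz => hz.1.le⟩ ?_
  by_contra hcon
  push Not at hcon
  have hc : ∀ n : ℕ, g (i + 1 + n) = g (i + 1) := by
    intro n
    induction n with
    | zero => simp
    | succ n ih =>
      have h1 := hcon (i + 1 + n) (by omega)
      have h2 : g (i + 1 + n) ≤ g (i + 1 + n + 1) := hg (by omega)
      have e : i + 1 + ((n + 1 : ℕ) : ℤ) = i + 1 + n + 1 := by push_cast; ring
      rw [e]; omega
  have h := hc 11
  have h' := hp (i + 1)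
  push_cast at h
  omega

theorem comb : ∃ i i1 i2 : ℤ, Round g i i1 ∧ Round g i1 i2 ∧ i2 ≤ i + 143 := by
  choose nx hnx1 hnx2 using exists_next g hg hp
  have hnxper : ∀ i, nx (i + 11) = nx i + 11 := by
    intro i
    have h1 := hnx1 i
    have h2 := hnx1 (i + 11)
    have e1 : g (nx i + 11) = g (nx i) + 11 := hp _
    have e2 : g (nx i + 11 + 1) = g (nx i + 1) + 11 := by
      rw [← hp (nx i + 1)]; congr 1; ring
    have h3 := hnx2 (i + 11) (nx i + 11) ⟨by omega, by omega⟩
    have e3 : g (nx (i + 11) - 11) = g (nx (i + 11)) - 11 := by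
      have := hp (nx (i + 11) - 11); rw [sub_add_cancel] at this; omega
    have e4 : g (nx (i + 11) - 11 + 1) = g (nx (i + 11) + 1) - 11 := by
      have := hp (nx (i + 11) - 11 + 1)
      have e5 : nx (i + 11) - 11 + 1 + 11 = nx (i + 11) + 1 := by ring
      rw [e5] at this; omega
    have h4 := hnx2 i (nx (i + 11) - 11) ⟨by omega, by omega⟩
    omega
  let p : ℕ → ℤ := fun k => Nat.rec (nx 0) (fun _ x => nx x) k
  have p0 : p 0 = nx 0 := rfl
  have psucc : ∀ k, p (k + 1) = nx (p k) := fun k => rfl
  have hre : ∀ k, g (p k) < g (p k + 1) := by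
    intro k
    cases k with
    | zero => exact (hnx1 0).2
    | succ k => exact (hnx1 (p k)).2
  have hlt : ∀ k, p k < p (k + 1) := fun k => (hnx1 (p k)).1
  have hconst : ∀ k, g (p (k + 1)) = g (p k + 1) := by
    intro k
    have key : ∀ n : ℕ, p k + 1 + n ≤ p (k + 1) → g (p k + 1 + n) = g (p k + 1) := by
      intro n
      induction n with
      | zero => intro; simp
      | succ n ih =>
        intro hn
        have e : p k + 1 + ((n + 1 : ℕ) : ℤ) = p k + 1 + n + 1 := by push_cast; ring
        rw [e] at hn ⊢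
        have ih' := ih (by omega)
        have h1 : ¬ (g (p k + 1 + n) < g (p k + 1 + n + 1)) := by
          intro hlt'
          have := hnx2 (p k) (p k + 1 + n) ⟨by omega, hlt'⟩
          rw [← psucc] at this
          omega
        have h2 : g (p k + 1 + n) ≤ g (p k + 1 + n + 1) := hg (by omega)
        omega
    have hk := hlt k
    obtain ⟨n, hn⟩ := Int.eq_ofNat_of_zero_le (show 0 ≤ p (k + 1) - (p k + 1) by omega)
    have := key n (by omega)
    rw [← this]; congr 1; omega
  have hge : ∀ k : ℕ, p 0 + k ≤ p k := by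
    intro k
    induction k with
    | zero => simp
    | succ k ih => have := hlt k; push_cast; omega
  obtain ⟨K, hK1, hK⟩ : ∃ K : ℕ, 1 ≤ K ∧ p K = p 0 + 11 := by
    have hex : ∃ k : ℕ, p 0 + 11 ≤ p k := ⟨11, by have := hge 11; push_cast at this; omega⟩
    classical
    refine ⟨Nat.find hex, ?_, ?_⟩
    · have hs := Nat.find_spec hex
      by_contra hcon
      have h0 : Nat.find hex = 0 := by omega
      rw [h0] at hs
      omega
    · have hs := Nat.find_spec hex
      have hpos : Nat.find hex ≠ 0 := by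
        intro h0
        rw [h0] at hs
        omega
      obtain ⟨k', hk'⟩ := Nat.exists_eq_succ_of_ne_zero hpos
      have hmin := Nat.find_min hex (m := k') (by omega)
      rw [hk'] at hs ⊢
      have h1 : g (p 0 + 11) < g (p 0 + 11 + 1) := by
        have e1 := hp (p 0)
        have e2 := hp (p 0 + 1)
        have e3 : p 0 + 1 + 11 = p 0 + 11 + 1 := by ring
        rw [e3] at e2
        have := hre 0
        omega
      have h2 := hnx2 (p k') (p 0 + 11) ⟨by omega, h1⟩
      rw [← psucc] at h2
      have hs' : p 0 + 11 ≤ p (k' + 1) := hs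
      show p (k' + 1) = p 0 + 11
      omega
  have hPK : ∀ k, p (k + K) = p k + 11 := by
    intro k
    induction k with
    | zero => simpa using hK
    | succ k ih =>
      have e : k + 1 + K = (k + K) + 1 := by ring
      rw [e, psucc, ih, hnxper, psucc]
  let e : ℕ → ℕ := fun k => if g (p k + 1) = g (p k) + 1 then 1 else 0
  let f : ℕ → ℕ := fun k => if p (k + 1) = p k + 1 then 1 else 0
  have he_def : ∀ k, e k = if g (p k + 1) = g (p k) + 1 then 1 else 0 := fun k => rfl
  have hf_def : ∀ k, f k = if p (k + 1) = p k + 1 then 1 else 0 := fun k => rfl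
  have hshift : ∀ k, g (p k + 1 + 11) = g (p k + 1) + 11 := fun k => hp _
  -- the basic comparison
  have hY : ∀ k, g (p k) + 1 < g (p (k + e k) + 1) := by
    intro k
    have h1 := hre k
    rw [he_def]
    split_ifs with h
    · have h2 := hre (k + 1)
      have h3 := hconst k
      omega
    · simp only [add_zero]
      omega
  have hX : ∀ k, p k + 2 ≤ p (k + 1 + f k) := by
    intro k
    have h1 := hlt k
    rw [hf_def]
    split_ifs with h
    · have h2 := hlt (k + 1)
      omega
    · simp only [add_zero]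
      omega
  have P1 : ∀ k, PairStep g 1 1 (p k) (p (q1 e f k)) := by
    intro k
    refine ⟨p (k + e k) + 1, hY k, ?_⟩
    have := hX (k + e k)
    simp only [q1]
    omega
  have P2 : ∀ k, PairStep g 1 10 (p k) (p (q2 K e k)) := by
    intro k
    refine ⟨p (k + e k) + 1, hY k, ?_⟩
    have := hPK (k + e k)
    simp only [q2]
    omega
  have P3 : ∀ k, 2 ≤ k → PairStep g 9 10 (p k) (p (q3 K e k)) := by
    intro k hk
    obtain ⟨j, rfl⟩ : ∃ j, k = j + 2 := ⟨k - 2, by omega⟩
    have ek : j + 2 - 1 = j + 1 := by omega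
    simp only [q3, ek]
    refine ⟨p (j + 1 - e (j + 1) + K) + 1, ?_, ?_⟩
    · have h1 := hPK (j + 1 - e (j + 1))
      have h2 := hshift (j + 1 - e (j + 1))
      have e4 : p (j + 1 - e (j + 1)) + 11 + 1 = p (j + 1 - e (j + 1)) + 1 + 11 := by ring
      rw [h1, e4, h2]
      have h3 := hconst (j + 1)
      have h4 := hconst j
      have e5 : j + 1 + 1 = j + 2 := by ring
      rw [e5] at h3
      by_cases h : g (p (j + 1) + 1) = g (p (j + 1)) + 1
      · have e6 : e (j + 1) = 1 := (he_def (j + 1)).trans (if_pos h)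
        rw [e6]
        simp only [Nat.add_sub_cancel]
        omega
      · have e6 : e (j + 1) = 0 := (he_def (j + 1)).trans (if_neg h)
        rw [e6]
        simp only [Nat.sub_zero]
        omega
    · have := hPK (j + 1 - e (j + 1) + K)
      omega
  have hRound : ∀ k, Round g (p k) (p (psi K e f k)) := by
    intro k
    refine ⟨_, _, _, _, _, P1 k, P1 _, P2 _, P3 _ ?_, P1 _, P1 _⟩
    simp only [q1, q2]
    omega
  have hpmono : ∀ a b : ℕ, a ≤ b → p a ≤ p b := by
    intro a b hab
    induction hab with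
    | refl => exact le_refl _
    | step _ ih => exact ih.trans (hlt _).le
  have hPKn : ∀ (n k : ℕ), p (k + n * K) = p k + 11 * n := by
    intro n
    induction n with
    | zero => intro k; simp
    | succ n ih =>
      intro k
      have e7 : k + (n + 1) * K = (k + n * K) + K := by ring
      rw [e7, hPK, ih]
      push_cast; ring
  -- it suffices to find k with psi (psi k) ≤ k + 13 K
  suffices hk : ∃ k, psi K e f (psi K e f k) ≤ k + 13 * K by
    obtain ⟨k, hk⟩ := hk
    refine ⟨p k, _, _, hRound k, hRound _, ?_⟩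
    have h1 := hpmono _ _ hk
    rw [hPKn 13 k] at h1
    push_cast at h1
    linarith
  have he1 : ∀ k, e k ≤ 1 := fun k => by rw [he_def]; split_ifs <;> omega
  have hf1 : ∀ k, f k ≤ 1 := fun k => by rw [hf_def]; split_ifs <;> omega
  rcases Nat.lt_or_ge 3 K with hK4 | hK3
  · refine ⟨0, ?_⟩
    have h1 := psi_le K e f he1 hf1 0
    have h2 := psi_le K e f he1 hf1 (psi K e f 0)
    omega
  · -- K ≤ 3
    have heper : Function.Periodic e K := by
      intro k
      have h1 := hPK k
      have e4 : p k + 11 + 1 = p k + 1 + 11 := by ring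
      rw [he_def, he_def, h1, e4, hp, hp]
      by_cases h : g (p k + 1) = g (p k) + 1
      · rw [if_pos h, if_pos (by omega)]
      · rw [if_neg h, if_neg (by omega)]
    have hfper : Function.Periodic f K := by
      intro k
      have h1 := hPK k
      have h2 := hPK (k + 1)
      have e4 : k + K + 1 = k + 1 + K := by ring
      rw [hf_def, hf_def, e4, h1, h2]
      by_cases h : p (k + 1) = p k + 1
      · rw [if_pos h, if_pos (by omega)]
      · rw [if_neg h, if_neg (by omega)]
    have hc0 := hconst 0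
    have hc1 := hconst 1
    have hc2 := hconst 2
    have hg11 : g (p 0 + 11) = g (p 0) + 11 := hp _
    simp only [zero_add] at hc0
    have hee : ∀ k, e k = 1 → g (p k + 1) = g (p k) + 1 := by
      intro k hk
      by_contra hcon
      rw [he_def, if_neg hcon] at hk
      omega
    have hff : ∀ k, f k = 1 → p (k + 1) = p k + 1 := by
      intro k hk
      by_contra hcon
      rw [hf_def, if_neg hcon] at hk
      omega
    let E : ∀ n : ℕ, Fin n → Fin 2 := fun n i => ⟨e i, by have := he1 i; omega⟩
    let F : ∀ n : ℕ, Fin n → Fin 2 := fun n i => ⟨f i, by have := hf1 i; omega⟩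
    have hE0 : ∀ k, e k ≠ 1 → e k = 0 := fun k hk => by have := he1 k; omega
    have hF0 : ∀ k, f k ≠ 1 → f k = 0 := fun k hk => by have := hf1 k; omega
    interval_cases K
    · have hE : ∃ i, E 1 i = 0 := by
        refine ⟨0, ?_⟩
        have : e 0 = 0 := hE0 0 (fun h => by
          have := hee 0 h
          rw [← hc0, hK] at this
          omega)
        exact Fin.ext this
      have hF : ∃ i, F 1 i = 0 := by
        refine ⟨0, ?_⟩
        have : f 0 = 0 := hF0 0 (fun h => by
          have := hff 0 h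
          rw [zero_add, hK] at this
          omega)
        exact Fin.ext this
      obtain ⟨k, hk⟩ := psi_check1 (E 1) (F 1) hE hF
      refine ⟨k, ?_⟩
      have e1 : (fun n => ((E 1 (Fin.ofNat 1 n) : Fin 2) : ℕ)) = e := by
        funext n
        exact heper.map_mod_nat n
      have e2 : (fun n => ((F 1 (Fin.ofNat 1 n) : Fin 2) : ℕ)) = f := by
        funext n
        exact hfper.map_mod_nat n
      rw [e1, e2] at hk
      exact hk
    · have hE : ∃ i, E 2 i = 0 := by
        by_contra hcon
        push Not at hcon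
        have h0 : e 0 = 1 := by
          by_contra h; exact hcon 0 (Fin.ext (hE0 0 h))
        have h1 : e 1 = 1 := by
          by_contra h; exact hcon 1 (Fin.ext (hE0 1 h))
        have a0 := hee 0 h0
        have a1 := hee 1 h1
        have e8 : (1 : ℕ) + 1 = 2 := rfl
        rw [← hc0] at a0
        rw [← hc1, e8, hK] at a1
        omega
      have hF : ∃ i, F 2 i = 0 := by
        by_contra hcon
        push Not at hcon
        have h0 : f 0 = 1 := by
          by_contra h; exact hcon 0 (Fin.ext (hF0 0 h))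
        have h1 : f 1 = 1 := by
          by_contra h; exact hcon 1 (Fin.ext (hF0 1 h))
        have a0 := hff 0 h0
        have a1 := hff 1 h1
        rw [zero_add] at a0
        have e8 : (1 : ℕ) + 1 = 2 := rfl
        rw [e8, hK] at a1
        omega
      obtain ⟨k, hk⟩ := psi_check2 (E 2) (F 2) hE hF
      refine ⟨k, ?_⟩
      have e1 : (fun n => ((E 2 (Fin.ofNat 2 n) : Fin 2) : ℕ)) = e := by
        funext n
        exact heper.map_mod_nat n
      have e2 : (fun n => ((F 2 (Fin.ofNat 2 n) : Fin 2) : ℕ)) = f := by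
        funext n
        exact hfper.map_mod_nat n
      rw [e1, e2] at hk
      exact hk
    · have hE : ∃ i, E 3 i = 0 := by
        by_contra hcon
        push Not at hcon
        have h0 : e 0 = 1 := by
          by_contra h; exact hcon 0 (Fin.ext (hE0 0 h))
        have h1 : e 1 = 1 := by
          by_contra h; exact hcon 1 (Fin.ext (hE0 1 h))
        have h2 : e 2 = 1 := by
          by_contra h; exact hcon 2 (Fin.ext (hE0 2 h))
        have a0 := hee 0 h0
        have a1 := hee 1 h1
        have a2 := hee 2 h2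
        have e8 : (1 : ℕ) + 1 = 2 := rfl
        have e9 : (2 : ℕ) + 1 = 3 := rfl
        rw [← hc0] at a0
        rw [← hc1, e8] at a1
        rw [← hc2, e9, hK] at a2
        omega
      have hF : ∃ i, F 3 i = 0 := by
        by_contra hcon
        push Not at hcon
        have h0 : f 0 = 1 := by
          by_contra h; exact hcon 0 (Fin.ext (hF0 0 h))
        have h1 : f 1 = 1 := by
          by_contra h; exact hcon 1 (Fin.ext (hF0 1 h))
        have h2 : f 2 = 1 := by
          by_contra h; exact hcon 2 (Fin.ext (hF0 2 h))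
        have a0 := hff 0 h0
        have a1 := hff 1 h1
        have a2 := hff 2 h2
        rw [zero_add] at a0
        have e8 : (1 : ℕ) + 1 = 2 := rfl
        have e9 : (2 : ℕ) + 1 = 3 := rfl
        rw [e8] at a1
        rw [e9, hK] at a2
        omega
      obtain ⟨k, hk⟩ := psi_check3 (E 3) (F 3) hE hF
      refine ⟨k, ?_⟩
      have e1 : (fun n => ((E 3 (Fin.ofNat 3 n) : Fin 2) : ℕ)) = e := by
        funext n
        exact heper.map_mod_nat n
      have e2 : (fun n => ((F 3 (Fin.ofNat 3 n) : Fin 2) : ℕ)) = f := by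
        funext n
        exact hfper.map_mod_nat n
      rw [e1, e2] at hk
      exact hk

end

end Pool.Agent.Slip
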