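import Pool.Agent.Slip.Interp

/-!
Lower bound: explicit invertible lifts `a`, `b` with translation number `1/11` such that
`b a b a b a^10 b^9 a^10 b a b a` (application order) applied twice moves a point by `13`.
All positions are in units of `1/220`.
-/

set_option autoImplicit false

namespace Pool.Agent.Slip

def Sa : ℕ → ℤ := fun r => ([0, 5, 15, 20, 25, 35, 40, 45, 55, 60, 65, 75, 80, 85, 95, 100, 105,
  115, 120, 125, 135, 140, 145, 155, 160, 165, 175, 180, 185, 200, 201, 220] : List ℤ).getD r 0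
def Ta : ℕ → ℤ := fun r => ([20, 25, 35, 40, 45, 55, 60, 65, 75, 80, 85, 95, 100, 105, 115, 120,
  125, 135, 140, 145, 155, 160, 165, 175, 180, 185, 195, 200, 219, 220, 235, 240] : List ℤ).getD r 0
def Sb : ℕ → ℤ := fun r => ([10, 15, 190, 195, 202, 203, 204, 205, 206, 207, 208, 209, 210, 211,
  212, 213, 214, 215, 216, 217, 218, 219, 230] : List ℤ).getD r 0
def Tb : ℕ → ℤ := fun r => ([190, 201, 202, 203, 204, 205, 206, 207, 208, 209, 210, 211, 212, 213,
  214, 215, 216, 217, 218, 225, 230, 405, 410] : List ℤ).getD r 0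

/-- the word, in Mathlib's product order -/
def word (a b : CircleDeg1Lift) : CircleDeg1Lift :=
  (a * b) * ((a * b) * ((a ^ 10 * b ^ 9) * ((a ^ 10 * b) * ((a * b) * (a * b)))))

theorem iter_succ_ge (f : CircleDeg1Lift) (n : ℕ) (x y z : ℝ) (h1 : y ≤ f x)
    (h2 : z ≤ (f ^ n) y) : z ≤ (f ^ (n + 1)) x := by
  rw [pow_succ, CircleDeg1Lift.mul_apply]
  exact h2.trans ((f ^ n).mono h1)

theorem exists_a : ∃ a : CircleDeg1Liftˣ,
    CircleDeg1Lift.translationNumber (a : CircleDeg1Lift) = 1 / 11 ∧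
    (219 / 220 : ℝ) ≤ (a : CircleDeg1Lift) (185 / 220) ∧
    (15 / 220 + 1 : ℝ) ≤ (a : CircleDeg1Lift) (201 / 220) ∧
    (195 / 220 + 1 : ℝ) ≤ ((a : CircleDeg1Lift) ^ 10) (201 / 220) ∧
    (219 / 220 + 1 : ℝ) ≤ ((a : CircleDeg1Lift) ^ 10) (225 / 220) ∧
    (165 / 220 + 1 : ℝ) ≤ ((a : CircleDeg1Lift) ^ 10) (185 / 220) := by
  obtain ⟨a, ha⟩ := exists_unit_of_lists 220 (by norm_num) 31 (by norm_num) Sa Ta
    (by decide) (by decide) (by decide) (by decide)
  have v : ∀ (r : ℕ), r < 31 → ∀ (x y : ℝ), (Sa r : ℝ) = x → (Ta r : ℝ) = y →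
      (a : CircleDeg1Lift) (x / 220) = y / 220 := by
    intro r hr x y hx hy
    rw [← hx, ← hy]
    exact_mod_cast ha r hr
  have h0 : (a : CircleDeg1Lift) (0 / 220) = 20 / 220 := v 0 (by norm_num) _ _ (by norm_num [Sa]) (by norm_num [Ta])
  have h5 : (a : CircleDeg1Lift) (5 / 220) = 25 / 220 := v 1 (by norm_num) _ _ (by norm_num [Sa]) (by norm_num [Ta])
  have h15 : (a : CircleDeg1Lift) (15 / 220) = 35 / 220 := v 2 (by norm_num) _ _ (by norm_num [Sa]) (by norm_num [Ta])
  have h20 : (a : CircleDeg1Lift) (20 / 220) = 40 / 220 := v 3 (by norm_num) _ _ (by norm_num [Sa]) (by norm_num [Ta])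
  have h25 : (a : CircleDeg1Lift) (25 / 220) = 45 / 220 := v 4 (by norm_num) _ _ (by norm_num [Sa]) (by norm_num [Ta])
  have h35 : (a : CircleDeg1Lift) (35 / 220) = 55 / 220 := v 5 (by norm_num) _ _ (by norm_num [Sa]) (by norm_num [Ta])
  have h40 : (a : CircleDeg1Lift) (40 / 220) = 60 / 220 := v 6 (by norm_num) _ _ (by norm_num [Sa]) (by norm_num [Ta])
  have h45 : (a : CircleDeg1Lift) (45 / 220) = 65 / 220 := v 7 (by norm_num) _ _ (by norm_num [Sa]) (by norm_num [Ta])
  have h55 : (a : CircleDeg1Lift) (55 / 220) = 75 / 220 := v 8 (by norm_num) _ _ (by norm_num [Sa]) (by norm_num [Ta])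
  have h60 : (a : CircleDeg1Lift) (60 / 220) = 80 / 220 := v 9 (by norm_num) _ _ (by norm_num [Sa]) (by norm_num [Ta])
  have h65 : (a : CircleDeg1Lift) (65 / 220) = 85 / 220 := v 10 (by norm_num) _ _ (by norm_num [Sa]) (by norm_num [Ta])
  have h75 : (a : CircleDeg1Lift) (75 / 220) = 95 / 220 := v 11 (by norm_num) _ _ (by norm_num [Sa]) (by norm_num [Ta])
  have h80 : (a : CircleDeg1Lift) (80 / 220) = 100 / 220 := v 12 (by norm_num) _ _ (by norm_num [Sa]) (by norm_num [Ta])
  have h85 : (a : CircleDeg1Lift) (85 / 220) = 105 / 220 := v 13 (by norm_num) _ _ (by norm_num [Sa]) (by norm_num [Ta])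
  have h95 : (a : CircleDeg1Lift) (95 / 220) = 115 / 220 := v 14 (by norm_num) _ _ (by norm_num [Sa]) (by norm_num [Ta])
  have h100 : (a : CircleDeg1Lift) (100 / 220) = 120 / 220 := v 15 (by norm_num) _ _ (by norm_num [Sa]) (by norm_num [Ta])
  have h105 : (a : CircleDeg1Lift) (105 / 220) = 125 / 220 := v 16 (by norm_num) _ _ (by norm_num [Sa]) (by norm_num [Ta])
  have h115 : (a : CircleDeg1Lift) (115 / 220) = 135 / 220 := v 17 (by norm_num) _ _ (by norm_num [Sa]) (by norm_num [Ta])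
  have h120 : (a : CircleDeg1Lift) (120 / 220) = 140 / 220 := v 18 (by norm_num) _ _ (by norm_num [Sa]) (by norm_num [Ta])
  have h125 : (a : CircleDeg1Lift) (125 / 220) = 145 / 220 := v 19 (by norm_num) _ _ (by norm_num [Sa]) (by norm_num [Ta])
  have h135 : (a : CircleDeg1Lift) (135 / 220) = 155 / 220 := v 20 (by norm_num) _ _ (by norm_num [Sa]) (by norm_num [Ta])
  have h140 : (a : CircleDeg1Lift) (140 / 220) = 160 / 220 := v 21 (by norm_num) _ _ (by norm_num [Sa]) (by norm_num [Ta])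
  have h145 : (a : CircleDeg1Lift) (145 / 220) = 165 / 220 := v 22 (by norm_num) _ _ (by norm_num [Sa]) (by norm_num [Ta])
  have h155 : (a : CircleDeg1Lift) (155 / 220) = 175 / 220 := v 23 (by norm_num) _ _ (by norm_num [Sa]) (by norm_num [Ta])
  have h160 : (a : CircleDeg1Lift) (160 / 220) = 180 / 220 := v 24 (by norm_num) _ _ (by norm_num [Sa]) (by norm_num [Ta])
  have h165 : (a : CircleDeg1Lift) (165 / 220) = 185 / 220 := v 25 (by norm_num) _ _ (by norm_num [Sa]) (by norm_num [Ta])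
  have h175 : (a : CircleDeg1Lift) (175 / 220) = 195 / 220 := v 26 (by norm_num) _ _ (by norm_num [Sa]) (by norm_num [Ta])
  have h180 : (a : CircleDeg1Lift) (180 / 220) = 200 / 220 := v 27 (by norm_num) _ _ (by norm_num [Sa]) (by norm_num [Ta])
  have h185 : (a : CircleDeg1Lift) (185 / 220) = 219 / 220 := v 28 (by norm_num) _ _ (by norm_num [Sa]) (by norm_num [Ta])
  have h200 : (a : CircleDeg1Lift) (200 / 220) = 220 / 220 := v 29 (by norm_num) _ _ (by norm_num [Sa]) (by norm_num [Ta])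
  have h201 : (a : CircleDeg1Lift) (201 / 220) = 235 / 220 := v 30 (by norm_num) _ _ (by norm_num [Sa]) (by norm_num [Ta])
  -- periodicity
  have per : ∀ x : ℝ, (a : CircleDeg1Lift) (x + 1) = (a : CircleDeg1Lift) x + 1 :=
    fun x => CircleDeg1Lift.map_add_one _ x
  have p8 : ((a : CircleDeg1Lift) ^ 8) (15 / 220) = 175 / 220 := by
    rw [CircleDeg1Lift.coe_pow]
    simp only [Function.iterate_succ, Function.iterate_zero, Function.comp_apply, id,
      h15, h35, h55, h75, h95, h115, h135, h155]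
  have p9 : ((a : CircleDeg1Lift) ^ 9) (15 / 220) = 195 / 220 := by
    rw [CircleDeg1Lift.coe_pow]
    simp only [Function.iterate_succ, Function.iterate_zero, Function.comp_apply, id,
      h15, h35, h55, h75, h95, h115, h135, h155, h175]
  have p10 : ((a : CircleDeg1Lift) ^ 10) (5 / 220) = 219 / 220 := by
    rw [CircleDeg1Lift.coe_pow]
    simp only [Function.iterate_succ, Function.iterate_zero, Function.comp_apply, id,
      h5, h25, h45, h65, h85, h105, h125, h145, h165, h185]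
  have p11 : ((a : CircleDeg1Lift) ^ 11) (0 / 220) = 220 / 220 := by
    rw [CircleDeg1Lift.coe_pow]
    simp only [Function.iterate_succ, Function.iterate_zero, Function.comp_apply, id,
      h0, h20, h40, h60, h80, h100, h120, h140, h160, h180, h200]
  have e235 : (235 / 220 : ℝ) = 15 / 220 + 1 := by norm_num
  have hA : (195 / 220 + 1 : ℝ) ≤ ((a : CircleDeg1Lift) ^ 10) (201 / 220) := by
    apply iter_succ_ge _ 9 _ (15 / 220 + 1)
    · rw [h201, e235]
    · rw [CircleDeg1Lift.map_add_one, p9]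
  refine ⟨a, ?_, ?_, ?_, hA, ?_, ?_⟩
  · have h := CircleDeg1Lift.translationNumber_of_map_pow_eq_add_int (f := (a : CircleDeg1Lift))
      (x := 0 / 220) (n := 11) (m := 1) (by rw [p11]; norm_num) (by norm_num)
    rw [h]; norm_num
  · rw [h185]
  · rw [h201, e235]
  · have : (225 / 220 : ℝ) = 5 / 220 + 1 := by norm_num
    rw [this, CircleDeg1Lift.map_add_one, p10]
  · apply iter_succ_ge _ 9 _ (201 / 220)
    · rw [h185]; norm_num
    · apply iter_succ_ge _ 8 _ (15 / 220 + 1)
      · rw [h201, e235]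
      · rw [CircleDeg1Lift.map_add_one, p8]; norm_num

theorem exists_b : ∃ b : CircleDeg1Liftˣ,
    CircleDeg1Lift.translationNumber (b : CircleDeg1Lift) = 1 / 11 ∧
    (201 / 220 : ℝ) ≤ (b : CircleDeg1Lift) (15 / 220) ∧
    (185 / 220 + 1 : ℝ) ≤ (b : CircleDeg1Lift) (219 / 220) ∧
    (203 / 220 : ℝ) ≤ (b : CircleDeg1Lift) (195 / 220) ∧
    (225 / 220 : ℝ) ≤ ((b : CircleDeg1Lift) ^ 9) (195 / 220) ∧
    (217 / 220 : ℝ) ≤ ((b : CircleDeg1Lift) ^ 9) (165 / 220) := by
  obtain ⟨b, hb⟩ := exists_unit_of_lists 220 (by norm_num) 22 (by norm_num) Sb Tb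
    (by decide) (by decide) (by decide) (by decide)
  have v : ∀ (r : ℕ), r < 22 → ∀ (x y : ℝ), (Sb r : ℝ) = x → (Tb r : ℝ) = y →
      (b : CircleDeg1Lift) (x / 220) = y / 220 := by
    intro r hr x y hx hy
    rw [← hx, ← hy]
    exact_mod_cast hb r hr
  have h10 : (b : CircleDeg1Lift) (10 / 220) = 190 / 220 := v 0 (by norm_num) _ _ (by norm_num [Sb]) (by norm_num [Tb])
  have h15 : (b : CircleDeg1Lift) (15 / 220) = 201 / 220 := v 1 (by norm_num) _ _ (by norm_num [Sb]) (by norm_num [Tb])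
  have h190 : (b : CircleDeg1Lift) (190 / 220) = 202 / 220 := v 2 (by norm_num) _ _ (by norm_num [Sb]) (by norm_num [Tb])
  have h195 : (b : CircleDeg1Lift) (195 / 220) = 203 / 220 := v 3 (by norm_num) _ _ (by norm_num [Sb]) (by norm_num [Tb])
  have h202 : (b : CircleDeg1Lift) (202 / 220) = 204 / 220 := v 4 (by norm_num) _ _ (by norm_num [Sb]) (by norm_num [Tb])
  have h203 : (b : CircleDeg1Lift) (203 / 220) = 205 / 220 := v 5 (by norm_num) _ _ (by norm_num [Sb]) (by norm_num [Tb])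
  have h204 : (b : CircleDeg1Lift) (204 / 220) = 206 / 220 := v 6 (by norm_num) _ _ (by norm_num [Sb]) (by norm_num [Tb])
  have h205 : (b : CircleDeg1Lift) (205 / 220) = 207 / 220 := v 7 (by norm_num) _ _ (by norm_num [Sb]) (by norm_num [Tb])
  have h206 : (b : CircleDeg1Lift) (206 / 220) = 208 / 220 := v 8 (by norm_num) _ _ (by norm_num [Sb]) (by norm_num [Tb])
  have h207 : (b : CircleDeg1Lift) (207 / 220) = 209 / 220 := v 9 (by norm_num) _ _ (by norm_num [Sb]) (by norm_num [Tb])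
  have h208 : (b : CircleDeg1Lift) (208 / 220) = 210 / 220 := v 10 (by norm_num) _ _ (by norm_num [Sb]) (by norm_num [Tb])
  have h209 : (b : CircleDeg1Lift) (209 / 220) = 211 / 220 := v 11 (by norm_num) _ _ (by norm_num [Sb]) (by norm_num [Tb])
  have h210 : (b : CircleDeg1Lift) (210 / 220) = 212 / 220 := v 12 (by norm_num) _ _ (by norm_num [Sb]) (by norm_num [Tb])
  have h211 : (b : CircleDeg1Lift) (211 / 220) = 213 / 220 := v 13 (by norm_num) _ _ (by norm_num [Sb]) (by norm_num [Tb])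
  have h212 : (b : CircleDeg1Lift) (212 / 220) = 214 / 220 := v 14 (by norm_num) _ _ (by norm_num [Sb]) (by norm_num [Tb])
  have h213 : (b : CircleDeg1Lift) (213 / 220) = 215 / 220 := v 15 (by norm_num) _ _ (by norm_num [Sb]) (by norm_num [Tb])
  have h214 : (b : CircleDeg1Lift) (214 / 220) = 216 / 220 := v 16 (by norm_num) _ _ (by norm_num [Sb]) (by norm_num [Tb])
  have h215 : (b : CircleDeg1Lift) (215 / 220) = 217 / 220 := v 17 (by norm_num) _ _ (by norm_num [Sb]) (by norm_num [Tb])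
  have h216 : (b : CircleDeg1Lift) (216 / 220) = 218 / 220 := v 18 (by norm_num) _ _ (by norm_num [Sb]) (by norm_num [Tb])
  have h217 : (b : CircleDeg1Lift) (217 / 220) = 225 / 220 := v 19 (by norm_num) _ _ (by norm_num [Sb]) (by norm_num [Tb])
  have h218 : (b : CircleDeg1Lift) (218 / 220) = 230 / 220 := v 20 (by norm_num) _ _ (by norm_num [Sb]) (by norm_num [Tb])
  have h219 : (b : CircleDeg1Lift) (219 / 220) = 405 / 220 := v 21 (by norm_num) _ _ (by norm_num [Sb]) (by norm_num [Tb])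
  have p9 : ((b : CircleDeg1Lift) ^ 9) (195 / 220) = 225 / 220 := by
    rw [CircleDeg1Lift.coe_pow]
    simp only [Function.iterate_succ, Function.iterate_zero, Function.comp_apply, id,
      h195, h203, h205, h207, h209, h211, h213, h215, h217]
  have p7 : ((b : CircleDeg1Lift) ^ 7) (203 / 220) = 217 / 220 := by
    rw [CircleDeg1Lift.coe_pow]
    simp only [Function.iterate_succ, Function.iterate_zero, Function.comp_apply, id,
      h203, h205, h207, h209, h211, h213, h215]
  have p11 : ((b : CircleDeg1Lift) ^ 11) (10 / 220) = 230 / 220 := by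
    rw [CircleDeg1Lift.coe_pow]
    simp only [Function.iterate_succ, Function.iterate_zero, Function.comp_apply, id,
      h10, h190, h202, h204, h206, h208, h210, h212, h214, h216, h218]
  refine ⟨b, ?_, ?_, ?_, ?_, ?_, ?_⟩
  · have h := CircleDeg1Lift.translationNumber_of_map_pow_eq_add_int (f := (b : CircleDeg1Lift))
      (x := 10 / 220) (n := 11) (m := 1) (by rw [p11]; norm_num) (by norm_num)
    rw [h]; norm_num
  · rw [h15]
  · rw [h219]; norm_num
  · rw [h195]
  · rw [p9]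
  · apply iter_succ_ge _ 8 _ (201 / 220)
    · rw [← h15]
      exact (b : CircleDeg1Lift).mono (by norm_num)
    · apply iter_succ_ge _ 7 _ (203 / 220)
      · rw [← h195]
        exact (b : CircleDeg1Lift).mono (by norm_num)
      · rw [p7]

/-- shift of a lower bound by an integer -/
theorem ge_shift (f : CircleDeg1Lift) (x y z w : ℝ) (c : ℤ) (h : y ≤ f x) (hz : x + c ≤ z)
    (hw : w = y + c) : w ≤ f z := by
  rw [hw]
  calc y + c ≤ f x + c := by linarith
    _ = f (x + c) := (f.map_add_int x c).symm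
    _ ≤ f z := f.mono hz

theorem chain (A B : CircleDeg1Lift)
    (a1 : (219 / 220 : ℝ) ≤ A (185 / 220))
    (a2 : (15 / 220 + 1 : ℝ) ≤ A (201 / 220))
    (a3 : (195 / 220 + 1 : ℝ) ≤ (A ^ 10) (201 / 220))
    (a4 : (219 / 220 + 1 : ℝ) ≤ (A ^ 10) (225 / 220))
    (a5 : (165 / 220 + 1 : ℝ) ≤ (A ^ 10) (185 / 220))
    (b1 : (201 / 220 : ℝ) ≤ B (15 / 220))
    (b2 : (185 / 220 + 1 : ℝ) ≤ B (219 / 220))
    (b3 : (203 / 220 : ℝ) ≤ B (195 / 220))
    (b4 : (225 / 220 : ℝ) ≤ (B ^ 9) (195 / 220))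
    (b5 : (217 / 220 : ℝ) ≤ (B ^ 9) (165 / 220)) :
    15 / 220 + (13 : ℤ) ≤ (word A B ^ 2) (15 / 220) := by
  have R1 : (219 / 220 + 6 : ℝ) ≤ word A B (15 / 220) := by
    simp only [word, CircleDeg1Lift.mul_apply]
    have s1 : (201 / 220 : ℝ) ≤ B (15 / 220) := b1
    have s2 := ge_shift A _ _ _ (15 / 220 + 1) 0 a2 (by simpa using s1) (by simp)
    have s3 := ge_shift B _ _ _ (201 / 220 + 1) 1 b1 (by simpa using s2) (by norm_num)
    have s4 := ge_shift A _ _ _ (15 / 220 + 2) 1 a2 (by simpa using s3) (by norm_num)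
    have s5 := ge_shift B _ _ _ (201 / 220 + 2) 2 b1 (by simpa using s4) (by norm_num)
    have s6 := ge_shift (A ^ 10) _ _ _ (195 / 220 + 3) 2 a3 (by simpa using s5) (by norm_num)
    have s7 := ge_shift (B ^ 9) _ _ _ (225 / 220 + 3) 3 b4 (by simpa using s6) (by norm_num)
    have s8 := ge_shift (A ^ 10) _ _ _ (219 / 220 + 4) 3 a4 (by simpa using s7) (by norm_num)
    have s9 := ge_shift B _ _ _ (185 / 220 + 5) 4 b2 (by simpa using s8) (by norm_num)
    have s10 := ge_shift A _ _ _ (219 / 220 + 5) 5 a1 (by simpa using s9) (by norm_num)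
    have s11 := ge_shift B _ _ _ (185 / 220 + 6) 5 b2 (by simpa using s10) (by norm_num)
    exact ge_shift A _ _ _ (219 / 220 + 6) 6 a1 (by simpa using s11) (by norm_num)
  have R2 : (15 / 220 + 7 : ℝ) ≤ word A B (219 / 220) := by
    simp only [word, CircleDeg1Lift.mul_apply]
    have s1 : (185 / 220 + 1 : ℝ) ≤ B (219 / 220) := b2
    have s2 := ge_shift A _ _ _ (219 / 220 + 1) 1 a1 (by simpa using s1) (by norm_num)
    have s3 := ge_shift B _ _ _ (185 / 220 + 2) 1 b2 (by simpa using s2) (by norm_num)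
    have s4 := ge_shift A _ _ _ (219 / 220 + 2) 2 a1 (by simpa using s3) (by norm_num)
    have s5 := ge_shift B _ _ _ (185 / 220 + 3) 2 b2 (by simpa using s4) (by norm_num)
    have s6 := ge_shift (A ^ 10) _ _ _ (165 / 220 + 4) 3 a5 (by simpa using s5) (by norm_num)
    have s7 := ge_shift (B ^ 9) _ _ _ (217 / 220 + 4) 4 b5 (by simpa using s6) (by norm_num)
    have s8 := ge_shift (A ^ 10) _ _ _ (195 / 220 + 5) 4 a3 (by
      refine le_trans ?_ s7
      norm_num) (by norm_num)
    have s9 := ge_shift B _ _ _ (203 / 220 + 5) 5 b3 (by simpa using s8) (by norm_num)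
    have s10 := ge_shift A _ _ _ (15 / 220 + 6) 5 a2 (by
      refine le_trans ?_ s9
      norm_num) (by norm_num)
    have s11 := ge_shift B _ _ _ (201 / 220 + 6) 6 b1 (by simpa using s10) (by norm_num)
    exact ge_shift A _ _ _ (15 / 220 + 7) 6 a2 (by simpa using s11) (by norm_num)
  rw [pow_two, CircleDeg1Lift.mul_apply]
  exact ge_shift (word A B) _ _ _ _ 6 R2 (by simpa using R1) (by norm_num)

theorem exists_ab : ∃ a b : CircleDeg1Liftˣ,
    CircleDeg1Lift.translationNumber (a : CircleDeg1Lift) = 1 / 11 ∧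
    CircleDeg1Lift.translationNumber (b : CircleDeg1Lift) = 1 / 11 ∧
    13 / 2 ≤ CircleDeg1Lift.translationNumber (word a b) := by
  obtain ⟨a, ha, a1, a2, a3, a4, a5⟩ := exists_a
  obtain ⟨b, hb, b1, b2, b3, b4, b5⟩ := exists_b
  refine ⟨a, b, ha, hb, ?_⟩
  have h := chain a b a1 a2 a3 a4 a5 b1 b2 b3 b4 b5
  have h2 := CircleDeg1Lift.le_translationNumber_of_add_int_le _ h
  rw [CircleDeg1Lift.translationNumber_pow] at h2
  push_cast at h2
  linarith

end Pool.Agent.Slip
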