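import Pool.Agent.Slip.Interp
import Pool.Agent.Slip.Lower
import Pool.Agent.Slip.Comb

/-!
Upper bound: for all invertible lifts `a`, `b` with translation number `1/11` the word has
translation number at most `13/2`.
-/

set_option autoImplicit false

namespace Pool.Agent.Slip

theorem exists_orbit (a : CircleDeg1Liftˣ)
    (ha : CircleDeg1Lift.translationNumber (a : CircleDeg1Lift) = 1 / 11) :
    ∃ u : ℤ → ℝ, StrictMono u ∧ (∀ i, (a : CircleDeg1Lift) (u i) = u (i + 1)) ∧
      ∀ i, u (i + 11) = u i + 1 := by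
  have hcont : Continuous (a : CircleDeg1Lift) := by
    have := (CircleDeg1Lift.toOrderIso a).continuous
    simpa using this
  have h := (CircleDeg1Lift.translationNumber_eq_rat_iff (a : CircleDeg1Lift) hcont (m := 1)
    (n := 11) (by norm_num)).1 (by rw [ha]; norm_num)
  obtain ⟨x, hx⟩ := h
  have hx' : ((a : CircleDeg1Lift) ^ 11) x = x + 1 := by rw [hx]; norm_num
  have hstep : ∀ i : ℤ, ((a ^ (i + 1) : CircleDeg1Liftˣ) : CircleDeg1Lift) x =
      ((a ^ i : CircleDeg1Liftˣ) : CircleDeg1Lift) ((a : CircleDeg1Lift) x) := by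
    intro i
    rw [zpow_add_one, Units.val_mul, CircleDeg1Lift.mul_apply]
  have hlt : x < (a : CircleDeg1Lift) x := by
    by_contra hcon
    push Not at hcon
    have h1 := (a : CircleDeg1Lift).iterate_le_of_map_le_add_int (x := x) (m := 0)
      (by simpa using hcon) 11
    rw [← CircleDeg1Lift.coe_pow, hx'] at h1
    norm_num at h1
  refine ⟨fun i => ((a ^ i : CircleDeg1Liftˣ) : CircleDeg1Lift) x, ?_, ?_, ?_⟩
  · apply strictMono_int_of_lt_succ
    intro i
    rw [hstep]
    have hsm : StrictMono (((a ^ i : CircleDeg1Liftˣ) : CircleDeg1Lift)) :=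
      (CircleDeg1Lift.toOrderIso (a ^ i)).strictMono
    exact hsm hlt
  · intro i
    show (a : CircleDeg1Lift) (((a ^ i : CircleDeg1Liftˣ) : CircleDeg1Lift) x) =
      ((a ^ (i + 1) : CircleDeg1Liftˣ) : CircleDeg1Lift) x
    rw [add_comm i 1, zpow_add, zpow_one, Units.val_mul, CircleDeg1Lift.mul_apply]
  · intro i
    show ((a ^ (i + 11) : CircleDeg1Liftˣ) : CircleDeg1Lift) x =
      ((a ^ i : CircleDeg1Liftˣ) : CircleDeg1Lift) x + 1
    have e : ((a ^ (11 : ℤ) : CircleDeg1Liftˣ) : CircleDeg1Lift) x = x + 1 := by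
      rw [← hx']
      congr 1
    rw [zpow_add, Units.val_mul, CircleDeg1Lift.mul_apply, e, CircleDeg1Lift.map_add_one]

theorem orbit_pow (a : CircleDeg1Lift) (u : ℤ → ℝ) (h : ∀ i, a (u i) = u (i + 1)) (n : ℕ) (i : ℤ) :
    (a ^ n) (u i) = u (i + n) := by
  induction n generalizing i with
  | zero => simp
  | succ n ih =>
    rw [pow_succ, CircleDeg1Lift.mul_apply, h, ih]
    congr 1
    push_cast
    ring

theorem pair_real (A B : CircleDeg1Lift) (u v : ℤ → ℝ) (g : ℤ → ℤ)
    (hu : StrictMono u) (hA : ∀ i, A (u i) = u (i + 1)) (hB : ∀ i, B (v i) = v (i + 1))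
    (g1 : ∀ i, u i ≤ v (g i)) (g2 : ∀ i j, u i ≤ v j → g i ≤ j)
    (β α : ℕ) (i i' : ℤ) (h : PairStep g β α i i') (z : ℝ) (hz : z ≤ u i) :
    (A ^ α) ((B ^ β) z) ≤ u i' := by
  obtain ⟨c, hc1, hc2⟩ := h
  have h1 : (B ^ β) z ≤ v (g i + β) := by
    rw [← orbit_pow B v hB]
    exact (B ^ β).mono (hz.trans (g1 i))
  have h2 : v (g i + β) < u c := by
    by_contra hcon
    push Not at hcon
    have := g2 c _ hcon
    omega
  calc (A ^ α) ((B ^ β) z) ≤ (A ^ α) (u c) := (A ^ α).mono (h1.trans h2.le)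
    _ = u (c + α) := orbit_pow A u hA α c
    _ ≤ u i' := hu.monotone hc2

theorem round_real (A B : CircleDeg1Lift) (u v : ℤ → ℝ) (g : ℤ → ℤ)
    (hu : StrictMono u) (hA : ∀ i, A (u i) = u (i + 1)) (hB : ∀ i, B (v i) = v (i + 1))
    (g1 : ∀ i, u i ≤ v (g i)) (g2 : ∀ i j, u i ≤ v j → g i ≤ j)
    (i i' : ℤ) (h : Round g i i') (z : ℝ) (hz : z ≤ u i) : word A B z ≤ u i' := by
  obtain ⟨i1, i2, i3, i4, i5, h1, h2, h3, h4, h5, h6⟩ := h
  have P := pair_real A B u v g hu hA hB g1 g2
  have r1 := P 1 1 i i1 (by simpa using h1) z hz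
  have r2 := P 1 1 i1 i2 (by simpa using h2) _ r1
  have r3 := P 1 10 i2 i3 (by simpa using h3) _ r2
  have r4 := P 9 10 i3 i4 (by simpa using h4) _ r3
  have r5 := P 1 1 i4 i5 (by simpa using h5) _ r4
  have r6 := P 1 1 i5 i' (by simpa using h6) _ r5
  simpa only [word, CircleDeg1Lift.mul_apply, pow_one] using r6

theorem upper (a b : CircleDeg1Liftˣ)
    (ha : CircleDeg1Lift.translationNumber (a : CircleDeg1Lift) = 1 / 11)
    (hb : CircleDeg1Lift.translationNumber (b : CircleDeg1Lift) = 1 / 11) :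
    CircleDeg1Lift.translationNumber (word a b) ≤ 13 / 2 := by
  obtain ⟨u, hu, hA, hup⟩ := exists_orbit a ha
  obtain ⟨v, hv, hB, hvp⟩ := exists_orbit b hb
  have hpu := per_int 11 u (by simpa using hup)
  have hpv := per_int 11 v (by simpa using hvp)
  have hex : ∀ i : ℤ, ∃ j : ℤ, u i ≤ v j ∧ ∀ z : ℤ, u i ≤ v z → j ≤ z := by
    intro i
    refine Int.exists_least_of_bdd (P := fun j => u i ≤ v j) ?_ ?_
    · refine ⟨0 + (11 : ℕ) * (⌊u i - v 0⌋ - 1), fun z hz => ?_⟩
      by_contra hcon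
      push Not at hcon
      have h1 := hv hcon
      rw [hpv] at h1
      have h2 := Int.floor_le (u i - v 0)
      push_cast at h1
      linarith
    · refine ⟨0 + (11 : ℕ) * ⌈u i - v 0⌉, ?_⟩
      rw [hpv]
      have h2 := Int.le_ceil (u i - v 0)
      linarith
  choose g g1 g2 using hex
  have hg : Monotone g := by
    intro i i' hii
    exact g2 i _ ((hu.monotone hii).trans (g1 i'))
  have hgp : ∀ i, g (i + 11) = g i + 11 := by
    intro i
    have h1 : g (i + 11) ≤ g i + 11 := by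
      apply g2
      rw [hup, hvp]
      have := g1 i
      linarith
    have h2 : g i ≤ g (i + 11) - 11 := by
      apply g2
      have h3 := g1 (i + 11)
      have h4 := hvp (g (i + 11) - 11)
      rw [sub_add_cancel] at h4
      rw [hup] at h3
      linarith
    omega
  obtain ⟨i, i1, i2, r1, r2, hi⟩ := comb g hg hgp
  have R := round_real a b u v g hu hA hB g1 g2
  have s1 := R i i1 r1 (u i) le_rfl
  have s2 := R i1 i2 r2 _ s1
  have s3 : (word a b ^ 2) (u i) ≤ u i + (13 : ℤ) := by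
    rw [pow_two, CircleDeg1Lift.mul_apply]
    refine s2.trans ((hu.monotone hi).trans ?_)
    have := hpu i 13
    have e : i + ((11 : ℕ) : ℤ) * 13 = i + 143 := by norm_num
    rw [e] at this
    rw [this]
  have h := CircleDeg1Lift.translationNumber_le_of_le_add_int _ s3
  rw [CircleDeg1Lift.translationNumber_pow] at h
  push_cast at h
  linarith

end Pool.Agent.Slip
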