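import Mathlib

/-!
Piecewise linear interpolation of strictly increasing, 1-periodic data by an invertible lift of a
circle homeomorphism.
-/

set_option autoImplicit false

namespace Pool.Agent.Slip

open Function

/-- The piecewise linear function through the points `(k / n, t k)`. -/
noncomputable def plFun (n : ℕ) (t : ℤ → ℝ) (x : ℝ) : ℝ :=
  t ⌊(n : ℝ) * x⌋ + Int.fract ((n : ℝ) * x) * (t (⌊(n : ℝ) * x⌋ + 1) - t ⌊(n : ℝ) * x⌋)

theorem plFun_strictMono (n : ℕ) (hn : 0 < n) (t : ℤ → ℝ) (ht : StrictMono t) :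
    StrictMono (plFun n t) := by
  intro x y hxy
  have hn' : (0 : ℝ) < n := by exact_mod_cast hn
  have hlt : (n : ℝ) * x < n * y := by nlinarith
  unfold plFun
  set X := (n : ℝ) * x with hX
  set Y := (n : ℝ) * y with hY
  have hfl : ⌊X⌋ ≤ ⌊Y⌋ := Int.floor_mono hlt.le
  have hx0 := Int.fract_nonneg X
  have hx1 := Int.fract_lt_one X
  have hy0 := Int.fract_nonneg Y
  have hy1 := Int.fract_lt_one Y
  have hdX : 0 < t (⌊X⌋ + 1) - t ⌊X⌋ := sub_pos.2 (ht (by omega))
  have hdY : 0 < t (⌊Y⌋ + 1) - t ⌊Y⌋ := sub_pos.2 (ht (by omega))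
  rcases hfl.eq_or_lt with h | h
  · have hfr : Int.fract X < Int.fract Y := by
      have e1 := Int.floor_add_fract X
      have e2 := Int.floor_add_fract Y
      have : (⌊X⌋ : ℝ) = ⌊Y⌋ := by exact_mod_cast h
      linarith
    rw [h]
    nlinarith
  · have h1 : t (⌊X⌋ + 1) ≤ t ⌊Y⌋ := ht.monotone (by omega)
    have h2 : t ⌊X⌋ + Int.fract X * (t (⌊X⌋ + 1) - t ⌊X⌋) < t (⌊X⌋ + 1) := by nlinarith
    have h3 : t ⌊Y⌋ ≤ t ⌊Y⌋ + Int.fract Y * (t (⌊Y⌋ + 1) - t ⌊Y⌋) := by nlinarith
    linarith

theorem per_int (n : ℕ) (t : ℤ → ℝ) (hper : ∀ k, t (k + n) = t k + 1) (k c : ℤ) :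
    t (k + n * c) = t k + c := by
  induction c using Int.induction_on with
  | zero => simp
  | succ i ih =>
    have : k + (n : ℤ) * ((i : ℤ) + 1) = (k + n * i) + n := by ring
    rw [this, hper, ih]; push_cast; ring
  | pred i ih =>
    have h := hper (k + (n : ℤ) * (-(i : ℤ) - 1))
    have e : k + (n : ℤ) * (-(i : ℤ) - 1) + n = k + (n : ℤ) * (-(i : ℤ)) := by ring
    rw [e, ih] at h
    push_cast at h ⊢
    linarith

theorem exists_unit_interp (n : ℕ) (hn : 0 < n) (t : ℤ → ℝ) (ht : StrictMono t)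
    (hper : ∀ k, t (k + n) = t k + 1) :
    ∃ f : CircleDeg1Liftˣ, ∀ k : ℤ, (f : CircleDeg1Lift) ((k : ℝ) / n) = t k := by
  have hn' : (0 : ℝ) < n := by exact_mod_cast hn
  have hmono := plFun_strictMono n hn t ht
  have hadd : ∀ x, plFun n t (x + 1) = plFun n t x + 1 := by
    intro x
    unfold plFun
    have e : (n : ℝ) * (x + 1) = n * x + (n : ℤ) := by push_cast; ring
    rw [e, Int.floor_add_intCast, Int.fract_add_intCast]
    have e2 : ⌊(n : ℝ) * x⌋ + (n : ℤ) + 1 = (⌊(n : ℝ) * x⌋ + 1) + n := by ring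
    rw [e2, hper, hper]
    ring
  let F : CircleDeg1Lift :=
    { toFun := plFun n t
      monotone' := hmono.monotone
      map_add_one' := hadd }
  have hF : ∀ x, F x = plFun n t x := fun x => rfl
  have hsurj : Surjective F := by
    intro y
    -- find k with t k ≤ y < t (k+1)
    have hb : ∃ b : ℤ, ∀ z : ℤ, t z ≤ y → z ≤ b := by
      refine ⟨n * (⌈y - t 0⌉ + 1), fun z hz => ?_⟩
      by_contra hcon
      push Not at hcon
      have h1 : t (0 + n * (⌈y - t 0⌉ + 1)) < t z := ht (by omega)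
      rw [per_int n t hper] at h1
      have h2 := Int.le_ceil (y - t 0)
      push_cast at h1
      linarith
    have hne : ∃ z : ℤ, t z ≤ y := by
      refine ⟨0 + n * ⌊y - t 0⌋, ?_⟩
      rw [per_int n t hper]
      have := Int.floor_le (y - t 0)
      linarith
    obtain ⟨k, hk, hk'⟩ := Int.exists_greatest_of_bdd hb hne
    have hk1 : y < t (k + 1) := by
      by_contra hcon
      push Not at hcon
      have := hk' _ hcon
      omega
    have hd : 0 < t (k + 1) - t k := sub_pos.2 (ht (by omega))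
    set θ := (y - t k) / (t (k + 1) - t k) with hθ
    have hθ0 : 0 ≤ θ := div_nonneg (by linarith) hd.le
    have hθ1 : θ < 1 := by rw [hθ, div_lt_one hd]; linarith
    refine ⟨((k : ℝ) + θ) / n, ?_⟩
    rw [hF]
    unfold plFun
    have e : (n : ℝ) * (((k : ℝ) + θ) / n) = k + θ := by field_simp
    have hfloor : ⌊(k : ℝ) + θ⌋ = k := by
      rw [Int.floor_eq_iff]
      constructor <;> linarith
    have hfract : Int.fract ((k : ℝ) + θ) = θ := by
      rw [Int.fract, hfloor]; ring
    rw [e, hfloor, hfract, hθ]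
    field_simp
    ring
  have hbij : Bijective F := ⟨hmono.injective, hsurj⟩
  obtain ⟨f, hf⟩ := CircleDeg1Lift.isUnit_iff_bijective.2 hbij
  refine ⟨f, fun k => ?_⟩
  rw [hf, hF]
  unfold plFun
  have e : (n : ℝ) * ((k : ℝ) / n) = k := by field_simp
  rw [e]
  simp

/-- Two strictly increasing periodic sequences are related by an invertible lift. -/
theorem exists_unit_interp2 (n : ℕ) (hn : 0 < n) (s t : ℤ → ℝ) (hs : StrictMono s)
    (ht : StrictMono t) (hsp : ∀ k, s (k + n) = s k + 1) (htp : ∀ k, t (k + n) = t k + 1) :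
    ∃ f : CircleDeg1Liftˣ, ∀ k : ℤ, (f : CircleDeg1Lift) (s k) = t k := by
  obtain ⟨f, hf⟩ := exists_unit_interp n hn s hs hsp
  obtain ⟨g, hg⟩ := exists_unit_interp n hn t ht htp
  refine ⟨g * f⁻¹, fun k => ?_⟩
  have h1 : ((f⁻¹ : CircleDeg1Liftˣ) : CircleDeg1Lift) (s k) = (k : ℝ) / n := by
    rw [← hf k, CircleDeg1Lift.units_inv_apply_apply]
  rw [Units.val_mul, CircleDeg1Lift.mul_apply, h1, hg]

/-- Integer version: data given by one period of integers, in units of `1/L` of a turn. -/
theorem exists_unit_of_lists (L : ℕ) (hL : 0 < L) (n : ℕ) (hn : 0 < n) (S T : ℕ → ℤ)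
    (hS : ∀ r, r < n → S r < S (r + 1)) (hSn : S n = S 0 + L)
    (hT : ∀ r, r < n → T r < T (r + 1)) (hTn : T n = T 0 + L) :
    ∃ f : CircleDeg1Liftˣ, ∀ r, r < n →
      (f : CircleDeg1Lift) ((S r : ℝ) / L) = (T r : ℝ) / L := by
  have hL' : (0 : ℝ) < L := by exact_mod_cast hL
  have hn0 : (n : ℤ) ≠ 0 := by omega
  have hnpos : (0 : ℤ) < n := by omega
  -- extension to ℤ
  have key : ∀ S : ℕ → ℤ, (∀ r, r < n → S r < S (r + 1)) → S n = S 0 + L →
      ∃ s : ℤ → ℝ, StrictMono s ∧ (∀ k, s (k + n) = s k + 1) ∧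
        ∀ r, r < n → s r = (S r : ℝ) / L := by
    intro S hS hSn
    refine ⟨fun k => (S (k % n).toNat : ℝ) / L + ((k / n : ℤ) : ℝ), ?_, ?_, ?_⟩
    · apply strictMono_int_of_lt_succ
      intro k
      have hm0 := Int.emod_nonneg k hn0
      have hm1 := Int.emod_lt_of_pos k hnpos
      obtain ⟨r, hr⟩ := Int.eq_ofNat_of_zero_le hm0
      have hrn : r < n := by omega
      have hkd := Int.mul_ediv_add_emod k n
      rcases Nat.lt_or_ge (r + 1) n with h | h
      · have e1 : (k + 1) % (n : ℤ) = ((r + 1 : ℕ) : ℤ) := by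
          have : k + 1 = ((r + 1 : ℕ) : ℤ) + n * (k / n) := by push_cast; rw [← hr]; linarith
          rw [this, Int.add_mul_emod_self_left]
          exact Int.emod_eq_of_lt (by omega) (by exact_mod_cast h)
        have e2 : (k + 1) / (n : ℤ) = k / n := by
          have : k + 1 = ((r + 1 : ℕ) : ℤ) + n * (k / n) := by push_cast; rw [← hr]; linarith
          rw [this, Int.add_mul_ediv_left _ _ hn0]
          rw [Int.ediv_eq_zero_of_lt (by omega) (by exact_mod_cast h)]
          simp
        simp only [e1, e2, hr, Int.toNat_natCast]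
        have := hS r hrn
        have h3 : (S r : ℝ) < S (r + 1) := by exact_mod_cast this
        have := div_lt_div_of_pos_right h3 hL'
        linarith
      · have hrr : r + 1 = n := by omega
        have e1 : (k + 1) % (n : ℤ) = ((0 : ℕ) : ℤ) := by
          have : k + 1 = 0 + n * (k / n + 1) := by
            have : (n : ℤ) = r + 1 := by exact_mod_cast hrr.symm
            have h5 : (n : ℤ) * (k / n + 1) = n * (k / n) + n := by ring
            rw [h5]
            linarith
          rw [this, Int.add_mul_emod_self_left]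
          simp
        have e2 : (k + 1) / (n : ℤ) = k / n + 1 := by
          have : k + 1 = 0 + n * (k / n + 1) := by
            have : (n : ℤ) = r + 1 := by exact_mod_cast hrr.symm
            have h5 : (n : ℤ) * (k / n + 1) = n * (k / n) + n := by ring
            rw [h5]
            linarith
          rw [this, Int.add_mul_ediv_left _ _ hn0]
          simp
        simp only [e1, e2, hr, Int.toNat_natCast]
        have h2 := hS r hrn
        rw [hrr, hSn] at h2
        have h3 : (S r : ℝ) < S 0 + L := by exact_mod_cast h2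
        have h4 := div_lt_div_of_pos_right h3 hL'
        have h5 : ((S 0 : ℝ) + L) / L = S 0 / L + 1 := by field_simp
        rw [h5] at h4
        push_cast
        linarith
    · intro k
      have e1 : (k + (n : ℤ)) % n = k % n := by simp
      have e2 : (k + (n : ℤ)) / n = k / n + 1 := by
        rw [Int.add_ediv_of_dvd_right (dvd_refl _), Int.ediv_self hn0]
      simp only [e1, e2]
      push_cast
      ring
    · intro r hr
      have e1 : ((r : ℤ)) % (n : ℤ) = ((r : ℕ) : ℤ) :=
        Int.emod_eq_of_lt (by omega) (by exact_mod_cast hr)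
      have e2 : ((r : ℤ)) / (n : ℤ) = 0 := Int.ediv_eq_zero_of_lt (by omega) (by exact_mod_cast hr)
      simp only [e1, e2, Int.toNat_natCast]
      simp
  obtain ⟨s, hs1, hs2, hs3⟩ := key S hS hSn
  obtain ⟨t, ht1, ht2, ht3⟩ := key T hT hTn
  obtain ⟨f, hf⟩ := exists_unit_interp2 n hn s t hs1 ht1 hs2 ht2
  refine ⟨f, fun r hr => ?_⟩
  rw [← hs3 r hr, ← ht3 r hr]
  exact hf r

end Pool.Agent.Slip
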